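import Pool.Agent.Y142.ZI.Stm

/-!
Project OI (helper282), lemma job OI-FORM2: skew maps with characteristic polynomial
`X * (X ^ (2 * m + 2) - c)`, `c` a uniformiser.
-/

set_option autoImplicit false

open Matrix Polynomial
open Pool.Agent.Y142.ZO

namespace Pool.Agent.Q217.OI.FORM2

section cyc
variable {F : Type} [Field F]

/-- the cyclic matrix on the indices `0, …, n`, zero on the index `n + 1` -/
def cyc (n : ℕ) (c : F) : Matrix (Fin (n + 2)) (Fin (n + 2)) F := fun i j =>
  if i.val = j.val + 1 ∧ j.val < n then 1 else if i.val = 0 ∧ j.val = n then c else 0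

theorem cyc_charpoly (n : ℕ) (hn : 0 < n) (c : F) :
    (cyc n c).charpoly = X ^ (n + 2) - C c * X := by
  rw [Matrix.charpoly, Matrix.det_succ_row_zero]
  have hsub : ∀ j : Fin (n + 2), j ≠ 0 → j ≠ ⟨n, by omega⟩ →
      (-1 : F[X]) ^ (j : ℕ) * (cyc n c).charmatrix 0 j *
        ((cyc n c).charmatrix.submatrix Fin.succ j.succAbove).det = 0 := by
    intro j hj0 hjn
    have h1 : (cyc n c).charmatrix 0 j = 0 := by
      rw [Matrix.charmatrix_apply_ne _ _ _ (Ne.symm hj0)]
      have : cyc n c 0 j = 0 := by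
        unfold cyc
        rw [if_neg, if_neg]
        · rintro ⟨-, h⟩
          exact hjn (Fin.ext h)
        · rintro ⟨h, -⟩
          simp at h
      rw [this, C_0, neg_zero]
    rw [h1, mul_zero, zero_mul]
  have h0n : (0 : Fin (n + 2)) ≠ ⟨n, by omega⟩ := by
    intro h
    have := congrArg Fin.val h
    simp at this
    omega
  rw [Finset.sum_eq_add (0 : Fin (n + 2)) ⟨n, by omega⟩ h0n (fun j _ h => hsub j h.1 h.2)
    (fun h => absurd (Finset.mem_univ _) h) (fun h => absurd (Finset.mem_univ _) h)]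
  -- first term
  have hA : (cyc n c).charmatrix 0 0 = X := by
    rw [Matrix.charmatrix_apply_eq]
    have : cyc n c 0 0 = 0 := by
      unfold cyc
      rw [if_neg, if_neg]
      · rintro ⟨-, h⟩
        simp at h
        omega
      · rintro ⟨h, -⟩
        simp at h
    rw [this, C_0, sub_zero]
  have hB : (cyc n c).charmatrix 0 ⟨n, by omega⟩ = - C c := by
    rw [Matrix.charmatrix_apply_ne _ _ _ h0n]
    have : cyc n c 0 ⟨n, by omega⟩ = c := by
      unfold cyc
      rw [if_neg, if_pos]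
      · exact ⟨rfl, rfl⟩
      · rintro ⟨h, -⟩
        simp at h
    rw [this]
  have hC : ((cyc n c).charmatrix.submatrix Fin.succ (0 : Fin (n + 2)).succAbove).det
      = X ^ (n + 1) := by
    rw [Matrix.det_of_isLowerTriangular]
    · rw [Finset.prod_eq_pow_card (b := (X : F[X]))]
      · simp
      · intro i _
        rw [Matrix.submatrix_apply, Fin.succAbove_zero, Matrix.charmatrix_apply_eq]
        have : cyc n c i.succ i.succ = 0 := by
          unfold cyc
          rw [if_neg, if_neg]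
          · rintro ⟨h, -⟩
            simp at h
          · rintro ⟨h, -⟩
            simp at h
        rw [this, C_0, sub_zero]
    · intro i j hij
      rw [Matrix.submatrix_apply, Fin.succAbove_zero]
      have hij' : i < j := hij
      rw [Matrix.charmatrix_apply_ne _ _ _ (fun h => (ne_of_lt hij') (Fin.succ_injective _ h))]
      have : cyc n c i.succ j.succ = 0 := by
        unfold cyc
        rw [if_neg, if_neg]
        · rintro ⟨h, -⟩
          simp at h
        · rintro ⟨h, -⟩
          simp at h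
          have : (i : ℕ) < j := hij'
          omega
      rw [this, C_0, neg_zero]
  have hD : ((cyc n c).charmatrix.submatrix Fin.succ (⟨n, by omega⟩ : Fin (n + 2)).succAbove).det
      = (-1) ^ n * X := by
    rw [Matrix.det_of_isUpperTriangular]
    · rw [Fin.prod_univ_castSucc]
      congr 1
      · rw [Finset.prod_eq_pow_card (b := (-1 : F[X]))]
        · simp
        · intro i _
          have h1 : (⟨n, by omega⟩ : Fin (n + 2)).succAbove i.castSucc = i.castSucc.castSucc := by
            apply Fin.succAbove_of_castSucc_lt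
            rw [Fin.lt_def]
            simp
          rw [Matrix.submatrix_apply, h1, Matrix.charmatrix_apply_ne]
          · have : cyc n c i.castSucc.succ i.castSucc.castSucc = 1 := by
              unfold cyc
              rw [if_pos]
              exact ⟨by simp, by simp⟩
            rw [this, C_1]
          · intro h
            have := congrArg Fin.val h
            simp at this
      · have h1 : (⟨n, by omega⟩ : Fin (n + 2)).succAbove (Fin.last n) = Fin.last (n + 1) := by
          rw [Fin.succAbove_of_le_castSucc]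
          · rfl
          · rw [Fin.le_def]
            simp
        rw [Matrix.submatrix_apply, h1]
        have h2 : (Fin.last n).succ = Fin.last (n + 1) := rfl
        rw [h2, Matrix.charmatrix_apply_eq]
        have : cyc n c (Fin.last (n + 1)) (Fin.last (n + 1)) = 0 := by
          unfold cyc
          rw [if_neg, if_neg]
          · rintro ⟨h, -⟩
            simp at h
          · rintro ⟨h, -⟩
            simp at h
        rw [this, C_0, sub_zero]
    · intro i j hij
      have hij' : j < i := hij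
      have hij'' : (j : ℕ) < i := hij'
      have hjn : (j : ℕ) < n := by have := i.isLt; omega
      have h1 : (⟨n, by omega⟩ : Fin (n + 2)).succAbove j = j.castSucc := by
        apply Fin.succAbove_of_castSucc_lt
        rw [Fin.lt_def]
        simpa using hjn
      rw [Matrix.submatrix_apply, h1, Matrix.charmatrix_apply_ne]
      · have : cyc n c i.succ j.castSucc = 0 := by
          unfold cyc
          rw [if_neg, if_neg]
          · rintro ⟨h, -⟩
            simp at h
          · rintro ⟨h, -⟩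
            simp at h
            omega
        rw [this, C_0, neg_zero]
      · intro h
        have := congrArg Fin.val h
        simp at this
        omega
  rw [hA, hB, hC, hD]
  have h1 : ((-1 : F[X]) ^ n) * ((-1) ^ n) = 1 := by
    rw [← mul_pow]; simp
  simp only [Fin.val_zero, pow_zero, one_mul]
  linear_combination (- C c * X) * h1

/-- entries of the Gram matrix in the cyclic basis -/
def gam (m : ℕ) (s c e : F) (i j : ℕ) : F :=
  if i + j = 2 * m then (-1) ^ i * s else
    if i = 2 * m + 1 ∧ j = 2 * m + 1 then -(s * c) else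
      if i = 2 * m + 2 ∧ j = 2 * m + 2 then e else 0

/-- entries of the Gram matrix times the cyclic matrix -/
def gamT (m : ℕ) (s c e : F) (i j : ℕ) : F :=
  if j < 2 * m + 1 then gam m s c e i (j + 1) else
    if j = 2 * m + 1 then gam m s c e i 0 * c else 0

theorem neg_pow_odd {i j k : ℕ} (h : i + j + 1 = 2 * k) : (-1 : F) ^ i = -(-1) ^ j := by
  have h1 : (-1 : F) ^ i * (-1) ^ j = -1 := by
    rw [← pow_add]
    exact Odd.neg_one_pow ⟨k - 1, by omega⟩
  have h2 : (-1 : F) ^ j * (-1) ^ j = 1 := by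
    rw [← mul_pow]; simp
  linear_combination (-(-1 : F) ^ i) * h2 + ((-1 : F) ^ j) * h1

theorem gamT_skew (m : ℕ) (s c e : F) (i j : ℕ) (hi : i < 2 * m + 3) (hj : j < 2 * m + 3) :
    gamT m s c e i j = - gamT m s c e j i := by
  unfold gamT gam
  by_cases h1 : i + j + 1 = 2 * m
  · rw [if_pos (by omega), if_pos (by omega), if_pos (by omega), if_pos (by omega),
      neg_pow_odd h1]
    ring
  by_cases h2 : i = 2 * m ∧ j = 2 * m + 1
  · obtain ⟨rfl, rfl⟩ := h2
    rw [if_neg (by omega), if_pos rfl, if_pos (by omega), if_pos (by omega), if_neg (by omega),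
      if_pos (by omega)]
    rw [pow_mul]
    simp
  by_cases h3 : i = 2 * m + 1 ∧ j = 2 * m
  · obtain ⟨rfl, rfl⟩ := h3
    rw [if_pos (by omega), if_neg (by omega), if_pos (by omega), if_neg (by omega), if_pos rfl,
      if_pos (by omega)]
    rw [pow_mul]
    simp
  have hz : ∀ a b : ℕ, a < 2 * m + 3 → b < 2 * m + 3 → ¬ (a + b + 1 = 2 * m) →
      ¬ (a = 2 * m ∧ b = 2 * m + 1) → ¬ (a = 2 * m + 1 ∧ b = 2 * m) →
      (if b < 2 * m + 1 then
        (if a + (b + 1) = 2 * m then (-1 : F) ^ a * s else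
          if a = 2 * m + 1 ∧ b + 1 = 2 * m + 1 then -(s * c) else
            if a = 2 * m + 2 ∧ b + 1 = 2 * m + 2 then e else 0) else
        if b = 2 * m + 1 then
          (if a + 0 = 2 * m then (-1 : F) ^ a * s else
            if a = 2 * m + 1 ∧ 0 = 2 * m + 1 then -(s * c) else
              if a = 2 * m + 2 ∧ 0 = 2 * m + 2 then e else 0) * c else 0) = 0 := by
    intro a b ha hb h1 h2 h3
    by_cases hb1 : b < 2 * m + 1
    · rw [if_pos hb1, if_neg (by omega), if_neg (by omega), if_neg (by omega)]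
    · rw [if_neg hb1]
      by_cases hb2 : b = 2 * m + 1
      · rw [if_pos hb2, if_neg (by omega), if_neg (by omega), if_neg (by omega), zero_mul]
      · rw [if_neg hb2]
  rw [hz i j hi hj h1 h2 h3, hz j i hj hi (by omega) (by omega) (by omega), neg_zero]

/-- the Gram matrix -/
def Gam (m : ℕ) (s c e : F) : Matrix (Fin (2 * m + 3)) (Fin (2 * m + 3)) F := fun i j =>
  gam m s c e i.val j.val

theorem Gam_mul (m : ℕ) (s c e : F) (i j : Fin (2 * m + 3)) :
    (Gam m s c e * cyc (2 * m + 1) c) i j = gamT m s c e i.val j.val := by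
  rw [Matrix.mul_apply]
  unfold gamT
  by_cases hj : j.val < 2 * m + 1
  · rw [if_pos hj, Finset.sum_eq_single (⟨j.val + 1, by omega⟩ : Fin (2 * m + 3))]
    · unfold cyc Gam
      rw [if_pos ⟨rfl, hj⟩, mul_one]
    · intro k _ hk
      unfold cyc
      rw [if_neg, if_neg, mul_zero]
      · rintro ⟨-, h⟩
        omega
      · rintro ⟨h, -⟩
        exact hk (Fin.ext h)
    · intro h
      exact absurd (Finset.mem_univ _) h
  · rw [if_neg hj]
    by_cases hj2 : j.val = 2 * m + 1
    · rw [if_pos hj2, Finset.sum_eq_single (⟨0, by omega⟩ : Fin (2 * m + 3))]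
      · unfold cyc Gam
        rw [if_neg, if_pos ⟨rfl, hj2⟩]
        rintro ⟨h, -⟩
        simp at h
      · intro k _ hk
        unfold cyc
        rw [if_neg, if_neg, mul_zero]
        · rintro ⟨h, -⟩
          exact hk (Fin.ext h)
        · rintro ⟨-, h⟩
          omega
      · intro h
        exact absurd (Finset.mem_univ _) h
    · rw [if_neg hj2]
      apply Finset.sum_eq_zero
      intro k _
      unfold cyc
      rw [if_neg, if_neg, mul_zero]
      · rintro ⟨-, h⟩
        omega
      · rintro ⟨-, h⟩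
        omega

theorem Gam_skew (m : ℕ) (s c e : F) :
    (Gam m s c e * cyc (2 * m + 1) c)ᵀ = -(Gam m s c e * cyc (2 * m + 1) c) := by
  ext i j
  rw [Matrix.transpose_apply, Matrix.neg_apply, Gam_mul, Gam_mul]
  exact gamT_skew m s c e _ _ j.isLt i.isLt

/-- the position of a standard basis vector in the cyclic basis -/
def pos (m : ℕ) : (Fin m ⊕ Fin m) ⊕ Fin 3 → ℕ :=
  Sum.elim (Sum.elim (fun i => i.val) (fun i => 2 * m - i.val)) (![m, 2 * m + 1, 2 * m + 2])

theorem pos_lt (m : ℕ) (a : (Fin m ⊕ Fin m) ⊕ Fin 3) : pos m a < 2 * m + 3 := by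
  rcases a with (i | i) | k
  · have := i.isLt
    simp only [pos, Sum.elim_inl]
    omega
  · simp only [pos, Sum.elim_inl, Sum.elim_inr]
    omega
  · fin_cases k <;> simp [pos]
    omega

theorem pos_inj (m : ℕ) : Function.Injective (pos m) := by
  intro a b hab
  rcases a with (i | i) | k <;> rcases b with (j | j) | l
  · simp only [pos, Sum.elim_inl] at hab
    rw [Fin.ext hab]
  · have := i.isLt
    have := j.isLt
    simp only [pos, Sum.elim_inl, Sum.elim_inr] at hab
    omega
  · have := i.isLt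
    fin_cases l <;> simp [pos] at hab <;> omega
  · have := i.isLt
    have := j.isLt
    simp only [pos, Sum.elim_inl, Sum.elim_inr] at hab
    omega
  · have := i.isLt
    have := j.isLt
    simp only [pos, Sum.elim_inl, Sum.elim_inr] at hab
    have : i = j := Fin.ext (by omega)
    rw [this]
  · have := i.isLt
    fin_cases l <;> simp [pos] at hab <;> omega
  · have := j.isLt
    fin_cases k <;> simp [pos] at hab <;> omega
  · have := j.isLt
    fin_cases k <;> simp [pos] at hab <;> omega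
  · fin_cases k <;> fin_cases l <;> simp [pos] at hab ⊢ <;> omega

/-- the scalars -/
def wt (m : ℕ) (s u : F) : (Fin m ⊕ Fin m) ⊕ Fin 3 → F :=
  Sum.elim (Sum.elim (fun _ => 1) (fun i => (-1) ^ i.val * s)) (![1, u, 1])

theorem gam_zero {m : ℕ} {s c e : F} {i j : ℕ} (h1 : i + j ≠ 2 * m)
    (h2 : ¬ (i = 2 * m + 1 ∧ j = 2 * m + 1)) (h3 : ¬ (i = 2 * m + 2 ∧ j = 2 * m + 2)) :
    gam m s c e i j = 0 := by
  unfold gam
  rw [if_neg h1, if_neg h2, if_neg h3]

theorem fin3 (k : Fin 3) : k = 0 ∨ k = 1 ∨ k = 2 := by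
  fin_cases k <;> simp

theorem pos_l (m : ℕ) (i : Fin m) : pos m (Sum.inl (Sum.inl i)) = i.val := rfl
theorem pos_m (m : ℕ) (i : Fin m) : pos m (Sum.inl (Sum.inr i)) = 2 * m - i.val := rfl
theorem pos_0 (m : ℕ) : pos m (Sum.inr 0) = m := rfl
theorem pos_1 (m : ℕ) : pos m (Sum.inr 1) = 2 * m + 1 := rfl
theorem pos_2 (m : ℕ) : pos m (Sum.inr 2) = 2 * m + 2 := rfl

theorem pos_r (m : ℕ) (k : Fin 3) : pos m (Sum.inr k) = m ∨ 2 * m < pos m (Sum.inr k) := by
  rcases fin3 k with rfl | rfl | rfl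
  · exact Or.inl rfl
  · right
    rw [pos_1]
    omega
  · right
    rw [pos_2]
    omega

theorem wt_l (m : ℕ) (s u : F) (i : Fin m) : wt m s u (Sum.inl (Sum.inl i)) = 1 := rfl
theorem wt_m (m : ℕ) (s u : F) (i : Fin m) :
    wt m s u (Sum.inl (Sum.inr i)) = (-1) ^ i.val * s := rfl
theorem wt_0 (m : ℕ) (s u : F) : wt m s u (Sum.inr 0) = 1 := rfl
theorem wt_1 (m : ℕ) (s u : F) : wt m s u (Sum.inr 1) = u := rfl
theorem wt_2 (m : ℕ) (s u : F) : wt m s u (Sum.inr 2) = 1 := rfl

theorem gam_pos (m : ℕ) (s u c : F) (d : Fin 3 → F) (hs : (-1) ^ m * s = d 0)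
    (hc : -(s * c) = u * d 1 * u) (a b : (Fin m ⊕ Fin m) ⊕ Fin 3) :
    gam m s c (d 2) (pos m a) (pos m b) = wt m s u a *
      (fromBlocks (fromBlocks 0 1 1 0) 0 0 (diagonal d) :
        Matrix ((Fin m ⊕ Fin m) ⊕ Fin 3) ((Fin m ⊕ Fin m) ⊕ Fin 3) F) a b * wt m s u b := by
  rcases a with (i | i) | k <;> rcases b with (j | j) | l
  · have := i.isLt
    have := j.isLt
    rw [pos_l, pos_l, gam_zero (by omega) (by omega) (by omega), fromBlocks_apply₁₁,
      fromBlocks_apply₁₁, Matrix.zero_apply, mul_zero, zero_mul]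
  · have := i.isLt
    have := j.isLt
    rw [pos_l, pos_m, fromBlocks_apply₁₁, fromBlocks_apply₁₂, wt_l, wt_m]
    by_cases hij : i = j
    · subst hij
      unfold gam
      rw [if_pos (by omega), Matrix.one_apply_eq]
      ring
    · have : i.val ≠ j.val := fun h => hij (Fin.ext h)
      rw [gam_zero (by omega) (by omega) (by omega), Matrix.one_apply_ne hij]
      ring
  · have := i.isLt
    have h := pos_r m l
    rw [pos_l, gam_zero (by omega) (by omega) (by omega), fromBlocks_apply₁₂, Matrix.zero_apply,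
      mul_zero, zero_mul]
  · have := i.isLt
    have := j.isLt
    rw [pos_l, pos_m, fromBlocks_apply₁₁, fromBlocks_apply₂₁, wt_l, wt_m]
    by_cases hij : i = j
    · subst hij
      unfold gam
      rw [if_pos (by omega), Matrix.one_apply_eq]
      have h1 : (-1 : F) ^ (2 * m - i.val) = (-1) ^ i.val := by
        have h2 : (-1 : F) ^ (2 * m - i.val) * (-1) ^ i.val = 1 := by
          rw [← pow_add, Nat.sub_add_cancel (by omega), pow_mul]
          simp
        have h3 : (-1 : F) ^ i.val * (-1) ^ i.val = 1 := by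
          rw [← mul_pow]; simp
        linear_combination (-(-1 : F) ^ (2 * m - i.val)) * h3 + ((-1 : F) ^ i.val) * h2
      rw [h1]
      ring
    · have : i.val ≠ j.val := fun h => hij (Fin.ext h)
      rw [gam_zero (by omega) (by omega) (by omega), Matrix.one_apply_ne hij]
      ring
  · have := i.isLt
    have := j.isLt
    rw [pos_m, pos_m, gam_zero (by omega) (by omega) (by omega), fromBlocks_apply₁₁,
      fromBlocks_apply₂₂, Matrix.zero_apply, mul_zero, zero_mul]
  · have := i.isLt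
    have h := pos_r m l
    rw [pos_m, gam_zero (by omega) (by omega) (by omega), fromBlocks_apply₁₂, Matrix.zero_apply,
      mul_zero, zero_mul]
  · have := j.isLt
    have h := pos_r m k
    rw [pos_l, gam_zero (by omega) (by omega) (by omega), fromBlocks_apply₂₁, Matrix.zero_apply,
      mul_zero, zero_mul]
  · have := j.isLt
    have h := pos_r m k
    rw [pos_m, gam_zero (by omega) (by omega) (by omega), fromBlocks_apply₂₁, Matrix.zero_apply,
      mul_zero, zero_mul]
  · rw [fromBlocks_apply₂₂]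
    by_cases hkl : k = l
    · subst hkl
      rw [Matrix.diagonal_apply_eq]
      rcases fin3 k with rfl | rfl | rfl
      · rw [pos_0, wt_0]
        unfold gam
        rw [if_pos (by omega), hs]
        ring
      · rw [pos_1, wt_1]
        unfold gam
        rw [if_neg (by omega), if_pos (by omega), hc]
      · rw [pos_2, wt_2]
        unfold gam
        rw [if_neg (by omega), if_neg (by omega), if_pos (by omega)]
        ring
    · rw [Matrix.diagonal_apply_ne _ hkl, mul_zero, zero_mul]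
      have h1 := pos_inj m
      have h2 : pos m (Sum.inr k) ≠ pos m (Sum.inr l) := fun h => hkl (Sum.inr.inj (h1 h))
      have h3 := pos_r m k
      have h4 := pos_r m l
      rw [gam_zero (by omega) (by omega) (by omega)]

/-- the position as an equivalence -/
noncomputable def posE (m : ℕ) : ((Fin m ⊕ Fin m) ⊕ Fin 3) ≃ Fin (2 * m + 3) :=
  Equiv.ofBijective (fun a => ⟨pos m a, pos_lt m a⟩) (by
    rw [Fintype.bijective_iff_injective_and_card]
    refine ⟨fun a b h => pos_inj m (congrArg Fin.val h), ?_⟩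
    simp only [Fintype.card_sum, Fintype.card_fin]
    omega)

/-- a skew map of the standard form -/
theorem std (m : ℕ) (s u c : F) (d : Fin 3 → F) (hs0 : s ≠ 0) (hu0 : u ≠ 0)
    (hs : (-1) ^ m * s = d 0) (hc : -(s * c) = u * d 1 * u) :
    ∃ T : Matrix ((Fin m ⊕ Fin m) ⊕ Fin 3) ((Fin m ⊕ Fin m) ⊕ Fin 3) F,
      ((fromBlocks (fromBlocks 0 1 1 0) 0 0 (diagonal d) :
        Matrix ((Fin m ⊕ Fin m) ⊕ Fin 3) ((Fin m ⊕ Fin m) ⊕ Fin 3) F) * T)ᵀ =
      -((fromBlocks (fromBlocks 0 1 1 0) 0 0 (diagonal d) :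
        Matrix ((Fin m ⊕ Fin m) ⊕ Fin 3) ((Fin m ⊕ Fin m) ⊕ Fin 3) F) * T) ∧
      T.charpoly = X * (X ^ (2 * m + 2) - C c) := by
  set G : Matrix ((Fin m ⊕ Fin m) ⊕ Fin 3) ((Fin m ⊕ Fin m) ⊕ Fin 3) F :=
    fromBlocks (fromBlocks 0 1 1 0) 0 0 (diagonal d) with hG
  set σ := posE m with hσ
  set w := wt m s u with hw
  have hw0 : ∀ a, w a ≠ 0 := by
    intro a
    rcases a with (i | i) | k
    · rw [hw, wt_l]; exact one_ne_zero
    · rw [hw, wt_m]; exact mul_ne_zero (pow_ne_zero _ (neg_ne_zero.2 one_ne_zero)) hs0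
    · rcases fin3 k with rfl | rfl | rfl
      · rw [hw, wt_0]; exact one_ne_zero
      · rw [hw, wt_1]; exact hu0
      · rw [hw, wt_2]; exact one_ne_zero
  set W : Matrix ((Fin m ⊕ Fin m) ⊕ Fin 3) ((Fin m ⊕ Fin m) ⊕ Fin 3) F := diagonal w with hW
  set W' : Matrix ((Fin m ⊕ Fin m) ⊕ Fin 3) ((Fin m ⊕ Fin m) ⊕ Fin 3) F :=
    diagonal (fun a => (w a)⁻¹) with hW'
  have hWW' : W * W' = 1 := by
    rw [hW, hW', Matrix.diagonal_mul_diagonal, ← Matrix.diagonal_one]
    apply congrArg
    funext a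
    exact mul_inv_cancel₀ (hw0 a)
  have hW'W : W' * W = 1 := by
    rw [hW, hW', Matrix.diagonal_mul_diagonal, ← Matrix.diagonal_one]
    apply congrArg
    funext a
    exact inv_mul_cancel₀ (hw0 a)
  have hWt : W'ᵀ = W' := by rw [hW', Matrix.diagonal_transpose]
  have hΓ : (Gam m s c (d 2)).submatrix σ σ = W * G * W := by
    ext a b
    rw [Matrix.submatrix_apply, hW, Matrix.mul_diagonal, Matrix.diagonal_mul]
    exact gam_pos m s u c d hs hc a b
  set K : Matrix ((Fin m ⊕ Fin m) ⊕ Fin 3) ((Fin m ⊕ Fin m) ⊕ Fin 3) F :=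
    (cyc (2 * m + 1) c).submatrix σ σ with hK
  have hΓK : (Gam m s c (d 2) * cyc (2 * m + 1) c).submatrix σ σ = W * G * W * K := by
    rw [← hΓ, hK, Matrix.submatrix_mul_equiv]
  have hskew : (W * G * W * K)ᵀ = -(W * G * W * K) := by
    rw [← hΓK, Matrix.transpose_submatrix, Gam_skew, Matrix.submatrix_neg]
    rfl
  have hGT : G * (W * K * W') = W' * (W * G * W * K) * W' := by
    calc G * (W * K * W') = 1 * G * W * K * W' := by simp only [Matrix.mul_assoc, Matrix.one_mul]
      _ = W' * (W * G * W * K) * W' := by rw [← hW'W]; simp only [Matrix.mul_assoc]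
  refine ⟨W * K * W', ?_, ?_⟩
  · rw [hGT, Matrix.transpose_mul, Matrix.transpose_mul, hskew, hWt]
    simp only [Matrix.mul_neg, Matrix.neg_mul, Matrix.mul_assoc]
  · rw [Matrix.charpoly_mul_comm, ← Matrix.mul_assoc, hW'W, Matrix.one_mul, hK]
    have h1 : (cyc (2 * m + 1) c).submatrix σ σ =
        Matrix.reindex σ.symm σ.symm (cyc (2 * m + 1) c) := rfl
    rw [h1, Matrix.charpoly_reindex, cyc_charpoly _ (by omega)]
    ring

end cyc

/-- S_FORM2 -/
theorem t (hWT : Pool.Agent.Y142.ZI.S_WT) : Pool.Agent.Y142.ZI.S_FORM2 := by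
  intro ℓ _ hℓ m B hB hdet
  obtain ⟨P, Q, d, hPQ, hQP, hd, ⟨k, hk⟩, hPBP⟩ := hWT ℓ hℓ m B hB hdet
  have hℓ0 : (ℓ : ℚ_[ℓ]) ≠ 0 := by
    exact_mod_cast (Fact.out : ℓ.Prime).ne_zero
  set s : ℚ_[ℓ] := (-1) ^ m * d 0 with hs
  set u : ℚ_[ℓ] := d 0 * (ℓ : ℚ_[ℓ]) ^ (-k) with hu
  set c : ℚ_[ℓ] := -((-1) ^ m * (d 0 * d 1) * (ℓ : ℚ_[ℓ]) ^ (-(2 * k))) with hc
  have hm1 : ((-1 : ℚ_[ℓ]) ^ m) * ((-1) ^ m) = 1 := by
    rw [← mul_pow]; simp
  have hs0 : s ≠ 0 := mul_ne_zero (pow_ne_zero _ (neg_ne_zero.2 one_ne_zero)) (hd 0)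
  have hu0 : u ≠ 0 := mul_ne_zero (hd 0) (zpow_ne_zero _ hℓ0)
  have hs1 : (-1) ^ m * s = d 0 := by
    rw [hs, ← mul_assoc, hm1, one_mul]
  have hz : (ℓ : ℚ_[ℓ]) ^ (-(2 * k)) = (ℓ : ℚ_[ℓ]) ^ (-k) * (ℓ : ℚ_[ℓ]) ^ (-k) := by
    rw [← zpow_add₀ hℓ0]
    congr 1
    ring
  have hc1 : -(s * c) = u * d 1 * u := by
    rw [hs, hc, hu, hz]
    linear_combination (d 0 * d 0 * d 1 * (ℓ : ℚ_[ℓ]) ^ (-k) * (ℓ : ℚ_[ℓ]) ^ (-k)) * hm1
  obtain ⟨T, hT1, hT2⟩ := std m s u c d hs0 hu0 hs1 hc1
  set G : Matrix ((Fin m ⊕ Fin m) ⊕ Fin 3) ((Fin m ⊕ Fin m) ⊕ Fin 3) ℚ_[ℓ] :=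
    fromBlocks (fromBlocks 0 1 1 0) 0 0 (diagonal d) with hG
  refine ⟨P * T * Q, c, ?_, ?_, ?_⟩
  · have h1 : Qᵀ * Pᵀ = 1 := by rw [← Matrix.transpose_mul, hPQ, Matrix.transpose_one]
    have h2 : B * (P * T * Q) = Qᵀ * (G * T) * Q := by
      rw [← hPBP]
      calc B * (P * T * Q) = 1 * B * P * T * Q := by simp only [Matrix.mul_assoc, Matrix.one_mul]
        _ = Qᵀ * (Pᵀ * B * P * T) * Q := by rw [← h1]; simp only [Matrix.mul_assoc]
    unfold Skew
    rw [h2, Matrix.transpose_mul, Matrix.transpose_mul, hT1, Matrix.transpose_transpose]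
    simp only [Matrix.mul_neg, Matrix.neg_mul, Matrix.mul_assoc]
  · have h01 : d 0 * d 1 ≠ 0 := mul_ne_zero (hd 0) (hd 1)
    have h1 : ‖d 0 * d 1‖ = (ℓ : ℝ) ^ (-(2 * k + 1)) := by
      rw [Padic.norm_eq_zpow_neg_valuation h01, hk]
    have h2 : ‖(ℓ : ℚ_[ℓ])‖ = (ℓ : ℝ)⁻¹ := Padic.norm_p
    have hℓR : (ℓ : ℝ) ≠ 0 := by exact_mod_cast (Fact.out : ℓ.Prime).ne_zero
    rw [hc, norm_neg, norm_mul, norm_mul, norm_pow, norm_neg, norm_one, one_pow, one_mul, h1,
      norm_zpow, h2, _root_.inv_zpow', neg_neg, ← zpow_add₀ hℓR]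
    have : -(2 * k + 1) + 2 * k = (-1 : ℤ) := by ring
    rw [this, _root_.zpow_neg_one]
  · rw [← hT2]
    have h1 := Matrix.charpoly_mul_comm' (P * T) Q
    have hcard : Fintype.card ((Fin m ⊕ Fin m) ⊕ Fin 3) = Fintype.card (Fin (2 * m + 3)) := by
      simp only [Fintype.card_sum, Fintype.card_fin]
      omega
    rw [hcard] at h1
    have h2 := (isRegular_X_pow (R := ℚ_[ℓ]) _).left.eq_iff.mp h1
    rw [h2, ← Matrix.mul_assoc, hQP, Matrix.one_mul]

end Pool.Agent.Q217.OI.FORM2
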